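import Pool.Agent.W829.RP.Defs

/-!
# Project RP: basic facts on Macbeath regions and economic coverings
-/

set_option autoImplicit false
set_option linter.unusedSectionVars false

open MeasureTheory Set Module
open scoped ENNReal Pointwise

namespace Pool.Agent.W916.RP

open Pool.Agent.W829.RP

section NoMeasure

variable {V : Type} [NormedAddCommGroup V] [NormedSpace ℝ V]

/-- the symmetrised set -/
def QQ (K : Set V) (y : V) : Set V := {p | y + p ∈ K ∧ y - p ∈ K}

theorem mac_eq (K : Set V) (y : V) (r : ℝ) : mac K y r = (fun p => y + r • p) '' QQ K y := by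
  ext z
  simp only [mac, QQ, mem_ofPred_eq, mem_image]
  constructor
  · rintro ⟨p, rfl, h1, h2⟩
    exact ⟨p, ⟨h1, h2⟩, rfl⟩
  · rintro ⟨p, ⟨h1, h2⟩, rfl⟩
    exact ⟨p, rfl, h1, h2⟩

theorem QQ_compact {K : Set V} (hK : IsCompact K) (y : V) : IsCompact (QQ K y) := by
  have h : QQ K y = (fun z => z - y) '' K ∩ (fun z => y - z) '' K := by
    ext p
    simp only [QQ, mem_ofPred_eq, mem_inter_iff, mem_image]
    constructor
    · rintro ⟨h1, h2⟩
      exact ⟨⟨y + p, h1, by abel⟩, ⟨y - p, h2, by abel⟩⟩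
    · rintro ⟨⟨a, ha, rfl⟩, ⟨b, hb, hb2⟩⟩
      refine ⟨by simpa using ha, ?_⟩
      rw [← hb2]
      simpa using hb
  rw [h]
  exact (hK.image (by fun_prop)).inter (hK.image (by fun_prop))

theorem mac_compact {K : Set V} (hK : IsCompact K) (y : V) (r : ℝ) : IsCompact (mac K y r) := by
  rw [mac_eq]
  exact (QQ_compact hK y).image (by fun_prop)

theorem mac_subset {K : Set V} (hK : Convex ℝ K) (y : V) {r : ℝ} (h0 : 0 ≤ r) (h1 : r ≤ 1) :
    mac K y r ⊆ K := by
  rintro z ⟨p, rfl, hp1, hp2⟩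
  have := hK hp1 hp2 (a := (1 + r) / 2) (b := (1 - r) / 2) (by linarith) (by linarith) (by ring)
  convert this using 1
  module

theorem self_mem_mac {K : Set V} {x : V} (hx : x ∈ K) (r : ℝ) : x ∈ mac K x r :=
  ⟨0, by simp, by simpa using hx, by simpa using hx⟩

/-- the values of a functional on a small Macbeath region -/
theorem mac_val {K : Set V} {y : V} {ℓ : V →L[ℝ] ℝ} {s M : ℝ} (hsup : mac K y 1 ⊆ cap K ℓ s)
    (hM : ∀ z ∈ K, ℓ z ≤ M) (hmid : 2 * ℓ y = s + M) {z : V} (hz : z ∈ mac K y (1 / 5)) :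
    |ℓ z - ℓ y| ≤ (M - s) / 10 := by
  obtain ⟨p, rfl, h1, h2⟩ := hz
  have h3 : y + p ∈ mac K y 1 := ⟨p, by simp, h1, h2⟩
  have h4 : y - p ∈ mac K y 1 := ⟨-p, by simp [sub_eq_add_neg], by simpa [sub_eq_add_neg] using h2,
    by simpa using h1⟩
  have h5 := (hsup h3).2
  have h6 := (hsup h4).2
  have h7 := hM _ h1
  have h8 := hM _ h2
  simp only [map_add, map_sub, map_smul, smul_eq_mul] at h5 h6 h7 h8 ⊢
  rw [abs_le]
  constructor <;> linarith

end NoMeasure

section Meas

variable {V : Type} [NormedAddCommGroup V] [NormedSpace ℝ V] [FiniteDimensional ℝ V]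
  [MeasureSpace V] [BorelSpace V] [(volume : Measure V).IsAddHaarMeasure]

theorem vol_add_smul (y : V) (r : ℝ) (S : Set V) :
    volume ((fun p => y + r • p) '' S) = ENNReal.ofReal (|r| ^ finrank ℝ V) * volume S := by
  have h : (fun p => y + r • p) '' S = (fun z => y + z) '' (r • S) := by
    rw [← image_smul, image_image]
  rw [h, image_add_left, measure_preimage_add, Measure.addHaar_smul, abs_pow]

theorem vol_mac (K : Set V) (y : V) (r : ℝ) :
    volume (mac K y r) = ENNReal.ofReal (|r| ^ finrank ℝ V) * volume (QQ K y) := by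
  rw [mac_eq, vol_add_smul]

/-- the constant `c₁` -/
noncomputable def c1 (D : ℕ) : ℝ := 1 / (2 * (20 * ((D : ℝ) + 1)) ^ D)

theorem c1_pos (D : ℕ) : 0 < c1 D := by
  unfold c1
  positivity

/-- lower bound for the volume of the small Macbeath region -/
theorem vol_mac_ge {K : Set V} {t : ℝ} {y : V} {ℓ : V →L[ℝ] ℝ} {s : ℝ} (h : Good K t y ℓ s) :
    ENNReal.ofReal (c1 (finrank ℝ V) * t) ≤ volume (mac K y (1 / 5)) := by
  set D := finrank ℝ V with hD
  have h1 : ENNReal.ofReal (t / 2) ≤ ENNReal.ofReal ((4 * ((D : ℝ) + 1)) ^ D) * volume (QQ K y) := by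
    refine (h.lo.trans (measure_mono h.sub)).trans ?_
    rw [vol_mac, abs_of_nonneg (by positivity)]
  have h2 : c1 D * t = (1 / 5) ^ D * ((4 * ((D : ℝ) + 1)) ^ D)⁻¹ * (t / 2) := by
    unfold c1
    have : (20 * ((D : ℝ) + 1)) ^ D = 5 ^ D * (4 * ((D : ℝ) + 1)) ^ D := by
      rw [← mul_pow]; congr 1; ring
    rw [this, one_div, mul_inv, mul_inv, one_div, inv_pow]
    ring
  rw [h2, ENNReal.ofReal_mul (by positivity), vol_mac, abs_of_nonneg (by norm_num : (0 : ℝ) ≤ 1 / 5)]
  calc ENNReal.ofReal ((1 / 5) ^ D * ((4 * ((D : ℝ) + 1)) ^ D)⁻¹) * ENNReal.ofReal (t / 2)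
      ≤ ENNReal.ofReal ((1 / 5) ^ D * ((4 * ((D : ℝ) + 1)) ^ D)⁻¹) *
        (ENNReal.ofReal ((4 * ((D : ℝ) + 1)) ^ D) * volume (QQ K y)) := by gcongr
    _ = ENNReal.ofReal ((1 / 5) ^ D) * volume (QQ K y) := by
        rw [← mul_assoc, ← ENNReal.ofReal_mul (by positivity)]
        congr 2
        rw [mul_assoc, inv_mul_cancel₀ (by positivity), mul_one]

/-- bounded overlap bounds the sum of the volumes -/
theorem sum_vol_le {N : ℕ} (F : Fin N → Set V) (S : Set V) (B : ℝ)
    (hF : ∀ i, MeasurableSet (F i)) (hS : MeasurableSet S) (hsub : ∀ i, F i ⊆ S)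
    (hB : ∀ p : V, ∀ J : Finset (Fin N), (∀ i ∈ J, p ∈ F i) → (J.card : ℝ) ≤ B) :
    ∑ i, volume (F i) ≤ ENNReal.ofReal B * volume S := by
  classical
  have h1 : ∑ i, volume (F i) = ∫⁻ p, ∑ i, (F i).indicator 1 p := by
    rw [lintegral_finsetSum _ (fun i _ => measurable_one.indicator (hF i))]
    refine Finset.sum_congr rfl fun i _ => ?_
    rw [lintegral_indicator_one (hF i)]
  have h2 : ENNReal.ofReal B * volume S = ∫⁻ p, S.indicator (fun _ => ENNReal.ofReal B) p := by
    rw [lintegral_indicator_const hS]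
  rw [h1, h2]
  refine lintegral_mono fun p => ?_
  have h3 : ∑ i, (F i).indicator (1 : V → ℝ≥0∞) p = ((Finset.univ.filter fun i => p ∈ F i).card : ℝ≥0∞) := by
    rw [Finset.card_filter, Nat.cast_sum]
    refine Finset.sum_congr rfl fun i _ => ?_
    by_cases hi : p ∈ F i <;> simp [hi]
  simp only [h3]
  by_cases hp : p ∈ S
  · rw [indicator_of_mem hp]
    have := hB p (Finset.univ.filter fun i => p ∈ F i) (fun i hi => (Finset.mem_filter.1 hi).2)
    rw [← ENNReal.ofReal_natCast]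
    exact ENNReal.ofReal_le_ofReal this
  · rw [indicator_of_notMem hp]
    have : (Finset.univ.filter fun i => p ∈ F i) = ∅ := by
      rw [Finset.filter_eq_empty_iff]
      intro i _ hi
      exact hp (hsub i hi)
    simp [this]

/-- packing: disjoint sets of volume at least `c` in a set of volume at most `v` -/
theorem packing {N : ℕ} (F : Fin N → Set V) (T : Set V) (J : Finset (Fin N)) (c v : ℝ) (hc : 0 < c)
    (hv : 0 ≤ v)
    (hF : ∀ i, MeasurableSet (F i)) (hd : ∀ i j, i ≠ j → Disjoint (F i) (F j))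
    (hsub : ∀ i ∈ J, F i ⊆ T) (hvol : ∀ i ∈ J, ENNReal.ofReal c ≤ volume (F i))
    (hT : volume T ≤ ENNReal.ofReal v) : (J.card : ℝ) ≤ v / c := by
  classical
  have h1 : ∑ i ∈ J, volume (F i) ≤ ENNReal.ofReal v := by
    rw [← measure_biUnion_finset (fun i _ j _ hij => hd i j hij) (fun i _ => hF i)]
    refine (measure_mono ?_).trans hT
    exact iUnion₂_subset hsub
  have h2 : (J.card : ℝ≥0∞) * ENNReal.ofReal c ≤ ENNReal.ofReal v := by
    refine le_trans ?_ h1
    rw [← nsmul_eq_mul]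
    exact Finset.card_nsmul_le_sum _ _ _ hvol
  rw [← ENNReal.ofReal_natCast, ← ENNReal.ofReal_mul (by positivity),
    ENNReal.ofReal_le_ofReal_iff hv] at h2
  rwa [le_div_iff₀ hc]

end Meas

end Pool.Agent.W916.RP
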