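import Pool.Agent.W916.RP.Base

/-!
# Project RP: first sum over an economic covering (statement `S_C1`)
-/

set_option autoImplicit false
set_option maxHeartbeats 4000000
set_option linter.unusedSectionVars false

open MeasureTheory Set Module
open scoped ENNReal Pointwise

namespace Pool.Agent.W916.RP

open Pool.Agent.W829.RP

section

variable {V : Type} [NormedAddCommGroup V] [NormedSpace ℝ V] [FiniteDimensional ℝ V]
  [MeasureSpace V] [BorelSpace V] [(volume : Measure V).IsAddHaarMeasure]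

/-- the shrunk copies of a small Macbeath region -/
theorem exists_E {K : Set V} (hKc : Convex ℝ K) (hK : IsCompact K) {O : V} (hO : O ∈ K) {r0 : ℝ}
    (hr0 : 0 < r0) {t : ℝ} (ht : 0 < t) {y : V} {ℓ : V →L[ℝ] ℝ} {s M : ℝ} (h : Good K t y ℓ s)
    (hM : ∀ z ∈ K, ℓ z ≤ M) (hMd : M = sSup (ℓ '' K)) (hs : ℓ O + r0 / 2 < s) (hh : M - s ≤ r0) :
    ∃ F : Set V, MeasurableSet F ∧ F ⊆ K ∧
      ENNReal.ofReal (r0 / 2 * (1 / 2) ^ finrank ℝ V * c1 (finrank ℝ V) * (t / (M - s))) ≤ volume F ∧
      ∀ p ∈ F, 0 < M - s ∧ ∃ μ : ℝ, 1 / 2 ≤ μ ∧ μ ≤ 1 ∧ ∃ x ∈ mac K y (1 / 5), p = O + μ • (x - O) := by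
  set D := finrank ℝ V with hD
  have hc1 := c1_pos D
  rcases le_or_gt (M - s) 0 with hneg | hpos
  · refine ⟨∅, MeasurableSet.empty, empty_subset _, ?_, fun p hp => absurd hp (notMem_empty p)⟩
    have : r0 / 2 * (1 / 2) ^ D * c1 D * (t / (M - s)) ≤ 0 :=
      mul_nonpos_of_nonneg_of_nonpos (by positivity) (div_nonpos_of_nonneg_of_nonpos ht.le hneg)
    rw [ENNReal.ofReal_of_nonpos this]
    exact zero_le
  set H := M - s with hH
  have hmid : 2 * ℓ y = s + M := by rw [hMd]; exact h.mid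
  set a := H / (2 * r0) with ha
  have ha0 : 0 < a := by positivity
  set L := ⌊r0 / H⌋₊ with hL
  have hx1 : 1 ≤ r0 / H := by rw [le_div_iff₀ hpos]; linarith
  have hL1 : 1 ≤ L := by
    rw [hL]
    exact Nat.one_le_floor_iff _ |>.2 hx1
  have hLle : (L : ℝ) ≤ r0 / H := Nat.floor_le (by positivity)
  have hLge : r0 / (2 * H) ≤ L := by
    have h1 : r0 / H < L + 1 := Nat.lt_floor_add_one _
    have h2 : (1 : ℝ) ≤ L := by exact_mod_cast hL1
    have h3 : r0 / (2 * H) = r0 / H / 2 := by field_simp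
    rw [h3]
    linarith
  have hlam : ∀ k < L, 1 / 2 ≤ 1 - (k : ℝ) * a ∧ 1 - (k : ℝ) * a ≤ 1 := by
    intro k hk
    have h1 : (k : ℝ) ≤ r0 / H := le_trans (by exact_mod_cast hk.le) hLle
    have h2 : (k : ℝ) * a ≤ 1 / 2 := by
      calc (k : ℝ) * a ≤ r0 / H * a := by gcongr
        _ = 1 / 2 := by rw [ha]; field_simp
    have h3 : 0 ≤ (k : ℝ) * a := by positivity
    constructor <;> linarith
  let g : ℕ → V → V := fun k z => O + (1 - (k : ℝ) * a) • (z - O)
  let F : ℕ → Set V := fun k => g k '' mac K y (1 / 5)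
  have hcomp : ∀ k, IsCompact (F k) := fun k => (mac_compact hK y _).image (by fun_prop)
  have hmeas : ∀ k, MeasurableSet (F k) := fun k => (hcomp k).isClosed.measurableSet
  have hvolF : ∀ k < L, ENNReal.ofReal ((1 / 2) ^ D * (c1 D * t)) ≤ volume (F k) := by
    intro k hk
    have h1 : F k = (fun p => (O - (1 - (k : ℝ) * a) • O) + (1 - (k : ℝ) * a) • p) '' mac K y (1 / 5) := by
      refine image_congr fun z _ => ?_
      simp only [g]
      module
    rw [h1, vol_add_smul, ENNReal.ofReal_mul (by positivity)]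
    have h2 := (hlam k hk).1
    refine mul_le_mul' (ENNReal.ofReal_le_ofReal ?_) (vol_mac_ge h)
    rw [abs_of_nonneg (by linarith)]
    gcongr
  have hdisj : ∀ i j, i < j → j < L → Disjoint (F i) (F j) := by
    intro i j hij hj
    rw [Set.disjoint_left]
    rintro p ⟨z, hz, rfl⟩ ⟨w, hw, hzw⟩
    simp only [g] at hzw
    have h1 := congrArg ℓ hzw
    simp only [map_add, map_sub, map_smul, smul_eq_mul] at h1
    have h2 := mac_val h.sup hM hmid hz
    have h3 := mac_val h.sup hM hmid hw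
    rw [abs_le] at h2 h3
    have h4 := hlam i (hij.trans hj)
    have h5 := hlam j hj
    have h6 : (j : ℝ) * a ≥ (i : ℝ) * a + a := by
      have : (i : ℝ) + 1 ≤ j := by exact_mod_cast hij
      nlinarith
    set q := ℓ y - ℓ O with hq
    have hq1 : r0 / 2 ≤ q := by
      have : ℓ y = s + H / 2 := by rw [hH]; linarith
      rw [hq, this]
      linarith
    have haq : H / 4 ≤ a * q := by
      calc H / 4 = a * (r0 / 2) := by rw [ha]; field_simp; norm_num
        _ ≤ a * q := by gcongr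
    -- values
    set lam := 1 - (i : ℝ) * a with hlam1
    set lam' := 1 - (j : ℝ) * a with hlam2
    have h7 : lam' * (ℓ w - ℓ O) = lam * (ℓ z - ℓ O) := by linarith
    have h8 : lam' ≤ lam - a := by rw [hlam1, hlam2]; linarith
    have h9 : q - H / 10 ≤ ℓ z - ℓ O := by rw [hq]; linarith [h2.1]
    have h10 : ℓ w - ℓ O ≤ q + H / 10 := by rw [hq]; linarith [h3.2]
    have h11 : lam * (q - H / 10) ≤ lam * (ℓ z - ℓ O) := by
      refine mul_le_mul_of_nonneg_left h9 (by linarith)
    have h12 : lam' * (ℓ w - ℓ O) ≤ lam' * (q + H / 10) :=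
      mul_le_mul_of_nonneg_left h10 (by linarith)
    have h13 : lam' * (q + H / 10) ≤ (lam - a) * (q + H / 10) :=
      mul_le_mul_of_nonneg_right h8 (by linarith)
    have h14 : 0 ≤ a * H := by positivity
    have h15 : lam * H ≤ H := by nlinarith
    nlinarith
  have hpd : ((Finset.range L : Finset ℕ) : Set ℕ).PairwiseDisjoint F := by
    intro i hi j hj hij
    simp only [Finset.coe_range, mem_Iio] at hi hj
    rcases lt_or_gt_of_ne hij with h1 | h1
    · exact hdisj i j h1 hj
    · exact (hdisj j i h1 hi).symm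
  refine ⟨⋃ k ∈ Finset.range L, F k, Finset.measurableSet_biUnion _ fun k _ => hmeas k, ?_, ?_, ?_⟩
  · refine iUnion₂_subset fun k hk => ?_
    rw [Finset.mem_range] at hk
    rintro p ⟨z, hz, rfl⟩
    have hz' := mac_subset hKc y (by norm_num) (by norm_num) hz
    have h4 := hlam k hk
    have := hKc hO hz' (a := (k : ℝ) * a) (b := 1 - (k : ℝ) * a) (by linarith) (by linarith) (by ring)
    convert this using 1
    simp only [g]
    module
  · rw [measure_biUnion_finset hpd (fun k _ => hmeas k)]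
    calc ENNReal.ofReal (r0 / 2 * (1 / 2) ^ D * c1 D * (t / H))
        ≤ ENNReal.ofReal (L * ((1 / 2) ^ D * (c1 D * t))) := by
          refine ENNReal.ofReal_le_ofReal ?_
          calc r0 / 2 * (1 / 2) ^ D * c1 D * (t / H) = r0 / (2 * H) * ((1 / 2) ^ D * (c1 D * t)) := by
                field_simp
            _ ≤ L * ((1 / 2) ^ D * (c1 D * t)) := by gcongr
      _ = ∑ _k ∈ Finset.range L, ENNReal.ofReal ((1 / 2) ^ D * (c1 D * t)) := by
          rw [Finset.sum_const, Finset.card_range, nsmul_eq_mul, ENNReal.ofReal_mul (by positivity),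
            ENNReal.ofReal_natCast]
      _ ≤ ∑ k ∈ Finset.range L, volume (F k) :=
          Finset.sum_le_sum fun k hk => hvolF k (Finset.mem_range.1 hk)
  · intro p hp
    simp only [mem_iUnion, Finset.mem_range, exists_prop] at hp
    obtain ⟨k, hk, z, hz, rfl⟩ := hp
    exact ⟨hpos, 1 - (k : ℝ) * a, (hlam k hk).1, (hlam k hk).2, z, hz, rfl⟩

/-- small caps are far from the centre -/
theorem cap_far {K : Set V} {O : V} {r0 : ℝ} (hr0 : 0 < r0) (hball : Metric.closedBall O r0 ⊆ K)
    {ℓ : V →L[ℝ] ℝ} {s : ℝ} (hn : ‖ℓ‖ = 1)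
    (hv : volume (cap K ℓ s) < volume (Metric.closedBall (0 : V) (r0 / 16))) : ℓ O + r0 / 2 < s := by
  by_contra hcon
  rw [not_lt] at hcon
  obtain ⟨e, he1, he2⟩ : ∃ e : V, ‖e‖ ≤ 1 ∧ 7 / 8 ≤ ℓ e := by
    obtain ⟨x, hx1, hx2⟩ := ℓ.exists_lt_apply_of_lt_opNorm (r := 7 / 8) (by rw [hn]; norm_num)
    rw [Real.norm_eq_abs] at hx2
    rcases le_or_gt 0 (ℓ x) with h | h
    · rw [abs_of_nonneg h] at hx2
      exact ⟨x, hx1.le, hx2.le⟩
    · rw [abs_of_neg h] at hx2
      exact ⟨-x, by simpa using hx1.le, by simpa using hx2.le⟩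
  have hsub : Metric.closedBall (O + (3 / 4 * r0) • e) (r0 / 16) ⊆ cap K ℓ s := by
    intro z hz
    rw [Metric.mem_closedBall, dist_eq_norm] at hz
    set w := z - (O + (3 / 4 * r0) • e) with hw
    have hz' : z = O + (3 / 4 * r0) • e + w := by rw [hw]; abel
    constructor
    · apply hball
      rw [Metric.mem_closedBall, dist_eq_norm, hz']
      have h1 : O + (3 / 4 * r0) • e + w - O = (3 / 4 * r0) • e + w := by abel
      rw [h1]
      have h2 : ‖(3 / 4 * r0) • e‖ ≤ 3 / 4 * r0 := by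
        rw [norm_smul, Real.norm_of_nonneg (by positivity)]
        nlinarith
      linarith [norm_add_le ((3 / 4 * r0) • e) w]
    · rw [hz']
      simp only [map_add, map_smul, smul_eq_mul]
      have h1 : |ℓ w| ≤ r0 / 16 := by
        have := ℓ.le_opNorm w
        rw [hn, one_mul, Real.norm_eq_abs] at this
        linarith
      have h2 := (abs_le.1 h1).1
      nlinarith
  have := measure_mono (μ := (volume : Measure V)) hsub
  rw [Measure.addHaar_closedBall_center] at this
  exact absurd (lt_of_le_of_lt this hv) (lt_irrefl _)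

end

theorem c1_main (hSC : S_SC) (hELR : S_ELR) : S_C1 := by
  intro V _ _ _ _ _ _ K hbody hfr
  obtain ⟨hKc, hK, O, hOi⟩ := hbody
  have hbody : IsBody K := ⟨hKc, hK, O, hOi⟩
  set D := finrank ℝ V with hD
  obtain ⟨r0, hr0, hball⟩ : ∃ r0 > 0, Metric.closedBall O r0 ⊆ K := by
    obtain ⟨ε, hε, hb⟩ := Metric.isOpen_iff.1 isOpen_interior O hOi
    exact ⟨ε / 2, by positivity, (Metric.closedBall_subset_ball (by linarith)).trans
      (hb.trans interior_subset)⟩
  have hO : O ∈ K := interior_subset hOi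
  obtain ⟨R1, hR1⟩ := hK.isBounded.subset_closedBall O
  set R0 := max R1 r0 with hR0
  have hKR : K ⊆ Metric.closedBall O R0 := hR1.trans (Metric.closedBall_subset_closedBall (le_max_left _ _))
  have hR0r : r0 ≤ R0 := le_max_right _ _
  have hR0pos : 0 < R0 := by linarith
  set vK := (volume K).toReal with hvK
  have hKfin : volume K ≠ ⊤ := hK.measure_lt_top.ne
  have hKpos : 0 < volume K := lt_of_lt_of_le (isOpen_interior.measure_pos volume ⟨O, hOi⟩)
    (measure_mono interior_subset)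
  have hvKpos : 0 < vK := ENNReal.toReal_pos hKpos.ne' hKfin
  have hvK2 : volume K = ENNReal.ofReal vK := (ENNReal.ofReal_toReal hKfin).symm
  set v0 := (volume (Metric.closedBall (0 : V) (r0 / 16))).toReal with hv0
  have hBfin : volume (Metric.closedBall (0 : V) (r0 / 16)) ≠ ⊤ := (isCompact_closedBall _ _).measure_lt_top.ne
  have hBpos : 0 < volume (Metric.closedBall (0 : V) (r0 / 16)) :=
    Metric.measure_closedBall_pos volume _ (by positivity)
  have hv0pos : 0 < v0 := ENNReal.toReal_pos hBpos.ne' hBfin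
  have hv02 : volume (Metric.closedBall (0 : V) (r0 / 16)) = ENNReal.ofReal v0 :=
    (ENNReal.ofReal_toReal hBfin).symm
  have hc1 := c1_pos D
  set κ := r0 / 2 * (1 / 2) ^ D * c1 D with hκ
  have hκpos : 0 < κ := by positivity
  set B := (2 : ℝ) ^ D / c1 D with hB
  have hB0 : 0 < B := by rw [hB]; positivity
  refine ⟨B * vK / κ, min (v0 / 2) (vK * (r0 / (2 * R0)) ^ D), by positivity,
    lt_min (by positivity) (by positivity), ?_⟩
  intro t ht htle N y ℓ s hgood hdisj
  have ht1 : t ≤ v0 / 2 := htle.trans (min_le_left _ _)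
  have ht2 : t ≤ vK * (r0 / (2 * R0)) ^ D := htle.trans (min_le_right _ _)
  have hbdd : ∀ i, BddAbove (ℓ i '' K) := fun i => (hK.image (ℓ i).continuous).bddAbove
  have hM : ∀ i, ∀ z ∈ K, ℓ i z ≤ sSup (ℓ i '' K) := fun i z hz => le_csSup (hbdd i) ⟨z, hz, rfl⟩
  have hMx : ∀ i, ∃ z0 ∈ K, ℓ i z0 = sSup (ℓ i '' K) := by
    intro i
    exact (hK.image (ℓ i).continuous).sSup_mem (Set.Nonempty.image _ ⟨O, hO⟩)
  have hs : ∀ i, ℓ i O + r0 / 2 < s i := by
    intro i
    refine cap_far hr0 hball (hgood i).norm (lt_of_le_of_lt (hgood i).hi ?_)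
    rw [hv02]
    exact (ENNReal.ofReal_lt_ofReal_iff hv0pos).2 (by linarith)
  have hdist : ∀ i, ∀ z ∈ K, |ℓ i z - ℓ i O| ≤ R0 := by
    intro i z hz
    have h1 := (ℓ i).le_opNorm (z - O)
    rw [(hgood i).norm, one_mul, Real.norm_eq_abs, map_sub] at h1
    have h2 := hKR hz
    rw [Metric.mem_closedBall, dist_eq_norm] at h2
    linarith
  have hH : ∀ i, sSup (ℓ i '' K) - s i ≤ r0 := by
    intro i
    by_contra hcon
    rw [not_le] at hcon
    obtain ⟨z0, hz0, hz0M⟩ := hMx i
    set H := sSup (ℓ i '' K) - s i with hHd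
    have hHle : H ≤ 2 * R0 := by
      have := (abs_le.1 (hdist i z0 hz0)).2
      have := hs i
      rw [hHd, ← hz0M]
      linarith
    have h1 := hSC V K hbody (ℓ i) z0 hz0 (fun y hy => by rw [hz0M]; exact hM i y hy)
      (H / (2 * R0)) (2 * R0) (div_nonneg (by linarith) (by linarith))
      ((div_le_one (by positivity)).2 hHle) (by linarith)
    have h2 : cap K (ℓ i) (ℓ i z0 - 2 * R0) = K := by
      ext z
      simp only [cap, mem_ofPred_eq, and_iff_left_iff_imp]
      intro hz
      have := (abs_le.1 (hdist i z0 hz0)).2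
      have := (abs_le.1 (hdist i z hz)).1
      linarith
    have h3 : ℓ i z0 - H / (2 * R0) * (2 * R0) = s i := by
      rw [div_mul_cancel₀ _ (by positivity), hHd, hz0M]
      ring
    have hH0 : 0 ≤ H := by linarith
    rw [h2, h3, hvK2, ← ENNReal.ofReal_mul (by positivity)] at h1
    have h4 := h1.trans (hgood i).hi
    rw [ENNReal.ofReal_le_ofReal_iff ht.le] at h4
    have h5 : (r0 / (2 * R0)) ^ D < (H / (2 * R0)) ^ D := by
      refine pow_lt_pow_left₀ ?_ (by positivity) (by omega)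
      exact div_lt_div_of_pos_right hcon (by positivity)
    nlinarith
  have hE := fun i => exists_E hKc hK hO hr0 ht (hgood i) (hM i) rfl (hs i) (hH i)
  choose F hF1 hF2 hF3 hF4 using hE
  have hover : ∀ p : V, ∀ J : Finset (Fin N), (∀ i ∈ J, p ∈ F i) → (J.card : ℝ) ≤ B := by
    intro p J hJ
    rcases J.eq_empty_or_nonempty with rfl | hne
    · simp only [Finset.card_empty, Nat.cast_zero]
      exact hB0.le
    have hx : ∀ i, ∃ (μ : ℝ) (x : V), i ∈ J → 1 / 2 ≤ μ ∧ μ ≤ 1 ∧ x ∈ mac K (y i) (1 / 5) ∧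
        p = O + μ • (x - O) := by
      intro i
      by_cases hi : i ∈ J
      · obtain ⟨-, μ, h1, h2, x, h3, h4⟩ := hF4 i p (hJ i hi)
        exact ⟨μ, x, fun _ => ⟨h1, h2, h3, h4⟩⟩
      · exact ⟨0, 0, fun h => absurd h hi⟩
    choose μ x hμ using hx
    obtain ⟨j, hj, hjmax⟩ := Finset.exists_max_image J μ hne
    obtain ⟨hj1, hj2, hj3, hj4⟩ := hμ j hj
    have hjpos := (hF4 j p (hJ j hj)).1
    set M := sSup (ℓ j '' K) with hMd
    set H := M - s j with hHd
    have hmid : 2 * ℓ j (y j) = s j + M := (hgood j).mid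
    have hxj := mac_val (hgood j).sup (hM j) hmid hj3
    rw [← hMd, ← hHd, abs_le] at hxj
    have hyj : ℓ j (y j) = s j + H / 2 := by rw [hHd]; linarith
    obtain ⟨z0, hz0, hz0M⟩ := hMx j
    rw [← hMd] at hz0M
    have hsub : ∀ i ∈ J, mac K (y i) (1 / 5) ⊆ cap K (ℓ j) (M - 2 * H) := by
      intro i hi
      obtain ⟨hi1, hi2, hi3, hi4⟩ := hμ i hi
      have hxK : x i ∈ K := mac_subset hKc _ (by norm_num) (by norm_num) hi3
      have hval : ℓ j (x j) ≤ ℓ j (x i) := by
        have h1 : O + μ j • (x j - O) = O + μ i • (x i - O) := by rw [← hj4, ← hi4]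
        have h2 := congrArg (ℓ j) h1
        simp only [map_add, map_sub, map_smul, smul_eq_mul] at h2
        have h3 : μ i ≤ μ j := hjmax i hi
        have h4 : 0 ≤ ℓ j (x j) - ℓ j O := by
          have := hs j
          linarith [hxj.1]
        by_contra hcon
        rw [not_le] at hcon
        have h5 : μ i * (ℓ j (x i) - ℓ j O) < μ i * (ℓ j (x j) - ℓ j O) :=
          mul_lt_mul_of_pos_left (by linarith) (by linarith)
        have h6 : μ i * (ℓ j (x j) - ℓ j O) ≤ μ j * (ℓ j (x j) - ℓ j O) :=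
          mul_le_mul_of_nonneg_right h3 h4
        linarith
      have h1 : mac K (y i) (1 / 5) ⊆ mac K (x i) (4 / 5) := by
        have := hELR V K hKc (x i) (y i) ⟨x i, self_mem_mac hxK _, hi3⟩ (1 / 5) (by norm_num)
        have e : (1 + 3 * (1 / 5 : ℝ)) / 2 = 4 / 5 := by norm_num
        rwa [e] at this
      intro z hz
      have hzm := h1 hz
      have hzK : z ∈ K := mac_subset hKc _ (by norm_num) (by norm_num) hzm
      refine ⟨hzK, ?_⟩
      obtain ⟨q, rfl, hq1, hq2⟩ := hzm
      have h2 := hM j _ hq2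
      rw [← hMd] at h2
      simp only [map_add, map_sub, map_smul, smul_eq_mul] at h2 ⊢
      have h3 : s j ≤ ℓ j (x j) := by linarith [hxj.1]
      have h4 := hM j _ hxK
      rw [← hMd] at h4
      linarith
    have hvolT : volume (cap K (ℓ j) (M - 2 * H)) ≤ ENNReal.ofReal (2 ^ D * t) := by
      have h1 := hSC V K hbody (ℓ j) z0 hz0 (fun y hy => by rw [hz0M]; exact hM j y hy)
        (1 / 2) (2 * H) (by norm_num) (by norm_num) (by linarith)
      rw [hz0M] at h1
      have h2 : M - 1 / 2 * (2 * H) = s j := by rw [hHd]; ring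
      rw [h2] at h1
      have h3 := h1.trans (hgood j).hi
      have h4 : volume (cap K (ℓ j) (M - 2 * H)) =
          ENNReal.ofReal (2 ^ D) * (ENNReal.ofReal ((1 / 2) ^ D) * volume (cap K (ℓ j) (M - 2 * H))) := by
        rw [← mul_assoc, ← ENNReal.ofReal_mul (by positivity), ← mul_pow]
        norm_num
      rw [h4, ENNReal.ofReal_mul (by positivity)]
      gcongr
    have hpack := packing (fun i => mac K (y i) (1 / 5)) _ J (c1 D * t) (2 ^ D * t) (by positivity)
      (by positivity) (fun i => (mac_compact hK _ _).isClosed.measurableSet) hdisj hsub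
      (fun i _ => vol_mac_ge (hgood i)) hvolT
    refine hpack.trans (le_of_eq ?_)
    rw [hB]
    field_simp
  have hsum := sum_vol_le F K B hF1 hK.isClosed.measurableSet hF2 hover
  have h1 : ∑ i, ENNReal.ofReal (κ * (t / (sSup (ℓ i '' K) - s i))) ≤ ENNReal.ofReal (B * vK) := by
    rw [ENNReal.ofReal_mul (by positivity), ← hvK2]
    exact (Finset.sum_le_sum fun i _ => hF3 i).trans hsum
  have h2 : κ * ∑ i, t / (sSup (ℓ i '' K) - s i) ≤ B * vK := by
    have h3 : ENNReal.ofReal (∑ i, κ * (t / (sSup (ℓ i '' K) - s i))) ≤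
        ∑ i, ENNReal.ofReal (κ * (t / (sSup (ℓ i '' K) - s i))) :=
      Finset.le_sum_of_subadditive _ ENNReal.ofReal_zero.le (fun _ _ => ENNReal.ofReal_add_le) _ _
    rw [← Finset.mul_sum] at h3
    have h4 := h3.trans h1
    rwa [ENNReal.ofReal_le_ofReal_iff (by positivity)] at h4
  rw [le_div_iff₀ hκpos]
  linarith

end Pool.Agent.W916.RP
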