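import Pool.Agent.W916.RP.Base

/-!
# Project RP: second sum over an economic covering (statement `S_C2`)
-/

set_option autoImplicit false
set_option maxHeartbeats 4000000
set_option linter.unusedSectionVars false

open MeasureTheory Set Module
open scoped ENNReal Pointwise

namespace Pool.Agent.W916.RP

open Pool.Agent.W829.RP

theorem mac_mono_one {V : Type} [NormedAddCommGroup V] [NormedSpace ℝ V] {K : Set V}
    (hKc : Convex ℝ K) (y : V) {r : ℝ} (h0 : 0 ≤ r) (h1 : r ≤ 1) : mac K y r ⊆ mac K y 1 := by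
  rintro z ⟨p, rfl, hp1, hp2⟩
  refine ⟨r • p, by simp, ?_, ?_⟩
  · have := hKc hp1 hp2 (a := (1 + r) / 2) (b := (1 - r) / 2) (by linarith) (by linarith) (by ring)
    convert this using 1
    module
  · have := hKc hp1 hp2 (a := (1 - r) / 2) (b := (1 + r) / 2) (by linarith) (by linarith) (by ring)
    convert this using 1
    module

theorem QQ_convex {V : Type} [NormedAddCommGroup V] [NormedSpace ℝ V] {K : Set V}
    (hKc : Convex ℝ K) (y : V) : Convex ℝ (QQ K y) := by
  rintro p ⟨hp1, hp2⟩ q ⟨hq1, hq2⟩ a b ha hb hab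
  constructor
  · have := hKc hp1 hq1 ha hb hab
    convert this using 1
    have : b = 1 - a := by linarith
    subst this
    module
  · have := hKc hp2 hq2 ha hb hab
    convert this using 1
    have : b = 1 - a := by linarith
    subst this
    module

theorem QQ_neg {V : Type} [NormedAddCommGroup V] [NormedSpace ℝ V] {K : Set V} {y p : V}
    (hp : p ∈ QQ K y) : -p ∈ QQ K y := by
  refine ⟨?_, ?_⟩
  · rw [← sub_eq_add_neg]
    exact hp.2
  · rw [sub_neg_eq_add]
    exact hp.1

section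

variable {k : ℕ}

theorem exists_U (hk : 1 ≤ k) {c : ℝ}
    (hpol : ∀ M : Set (E k), IsBody M → (∀ x ∈ M, -x ∈ M) →
      ENNReal.ofReal c ≤ volume M * volume {g : E k | ∀ w ∈ M, |inner ℝ g w| ≤ 1})
    {K : Set (E k)} (hKc : Convex ℝ K) (hK : IsCompact K) {O : E k} {r0 R0 : ℝ}
    (hr0 : 0 < r0) (hR0 : 0 < R0) (hball : Metric.closedBall O r0 ⊆ K) {t : ℝ} (ht : 0 < t) {y : E k} {ℓ : E k →L[ℝ] ℝ} {s M : ℝ}
    (h : Good K t y ℓ s) (hM : ∀ z ∈ K, ℓ z ≤ M) {z : E k} (hz : z ∈ K)
    (hzM : ℓ z = M) (hpos0 : 0 ≤ M - s) (hH : M - s ≤ 2 * R0) (hW : ∀ w ∈ K, M - ℓ w ≤ 2 * R0) :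
    ∃ U : Set (E k), MeasurableSet U ∧ U ⊆ Metric.closedBall 0 (1 + R0 / (4 * r0)) ∧
      ENNReal.ofReal ((1 / (8 * (4 * ((k : ℝ) + 1)))) ^ k * c * ((M - s) ^ k / t)) ≤ volume U ∧
      ∀ v ∈ U, (∀ w ∈ cap K ℓ s, ∀ w' ∈ K, inner ℝ v w' - inner ℝ v w ≤ 2 * (M - s)) ∧
        (∀ w ∈ K, (∀ w' ∈ K, inner ℝ v w' - inner ℝ v w ≤ 2 * (M - s)) →
          z + (3 / 8 : ℝ) • (w - z) ∈ cap K ℓ s) := by
  have hfr : finrank ℝ (E k) = k := by simp
  rcases eq_or_lt_of_le hpos0 with h0 | hpos
  · refine ⟨∅, MeasurableSet.empty, empty_subset _, ?_, fun v hv => absurd hv (notMem_empty v)⟩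
    rw [← h0, zero_pow (by omega)]
    simp
  set H := M - s with hHd
  set kp : ℝ := 4 * ((k : ℝ) + 1) with hkp
  have hkp0 : 0 < kp := by positivity
  set c0 : ℝ := 1 / (8 * kp) with hc0
  have hc00 : 0 < c0 := by positivity
  set u : E k := (InnerProductSpace.toDual ℝ (E k)).symm ℓ with hu
  have hul : ∀ w, inner ℝ u w = ℓ w := fun w => InnerProductSpace.toDual_symm_apply
  have hun : ‖u‖ = 1 := by
    rw [hu, LinearIsometryEquiv.norm_map]
    exact h.norm
  set Q := QQ K y with hQ
  have hQc : IsCompact Q := QQ_compact hK y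
  have hQconv : Convex ℝ Q := QQ_convex hKc y
  have hsub : ∀ w ∈ cap K ℓ s, ∃ q ∈ Q, w = y + kp • q := by
    intro w hw
    have := h.sub hw
    rw [mac_eq, hfr] at this
    obtain ⟨q, hq, rfl⟩ := this
    exact ⟨q, hq, rfl⟩
  have hcapconv : Convex ℝ (cap K ℓ s) := by
    intro a ha b hb α β hα hβ hαβ
    refine ⟨hKc ha.1 hb.1 hα hβ hαβ, ?_⟩
    simp only [map_add, map_smul, smul_eq_mul]
    have h1 := ha.2
    have h2 := hb.2
    have : β = 1 - α := by linarith
    subst this
    nlinarith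
  have hzcap : z ∈ cap K ℓ s := ⟨hz, by rw [hzM]; linarith⟩
  -- `Q` contains a ball
  set θ := H / (2 * R0) with hθ
  have hθ0 : 0 < θ := by positivity
  have hθ1 : θ ≤ 1 := (div_le_one (by positivity)).2 hH
  have hcapK : ∀ w ∈ K, z + θ • (w - z) ∈ cap K ℓ s := by
    intro w hw
    constructor
    · have := hKc hz hw (a := 1 - θ) (b := θ) (by linarith) hθ0.le (by ring)
      convert this using 1
      module
    · simp only [map_add, map_smul, map_sub, smul_eq_mul]
      rw [hzM]
      have h1 := hW w hw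
      have h2 : θ * (M - ℓ w) ≤ H := by
        calc θ * (M - ℓ w) ≤ θ * (2 * R0) := by gcongr
          _ = H := by rw [hθ]; field_simp
      have h3 : θ * (ℓ w - M) = -(θ * (M - ℓ w)) := by ring
      rw [h3]
      linarith
  set ρ := θ * r0 / kp with hρ
  have hρ0 : 0 < ρ := by positivity
  have hQball : Metric.closedBall (0 : E k) ρ ⊆ Q := by
    intro v hv
    rw [mem_closedBall_zero_iff] at hv
    -- `O ± (kp/θ) v` in the ball
    have hn : ‖(kp / θ) • v‖ ≤ r0 := by
      rw [norm_smul, Real.norm_of_nonneg (by positivity)]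
      calc kp / θ * ‖v‖ ≤ kp / θ * ρ := by gcongr
        _ = r0 := by rw [hρ]; field_simp
    have h1 : O + (kp / θ) • v ∈ K := hball (by
      rw [Metric.mem_closedBall, dist_eq_norm]
      simpa using hn)
    have h2 : O - (kp / θ) • v ∈ K := hball (by
      rw [Metric.mem_closedBall, dist_eq_norm]
      simpa using hn)
    obtain ⟨q1, hq1, e1⟩ := hsub _ (hcapK _ h1)
    obtain ⟨q2, hq2, e2⟩ := hsub _ (hcapK _ h2)
    have h3 := hQconv hq1 (QQ_neg hq2) (a := 1 / 2) (b := 1 / 2) (by norm_num) (by norm_num) (by norm_num)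
    convert h3 using 1
    have e3 : kp • (q1 - q2) = kp • ((2 : ℝ) • v) := by
      have e4 : kp • (q1 - q2) = (z + θ • (O + (kp / θ) • v - z)) - (z + θ • (O - (kp / θ) • v - z)) := by
        rw [e1, e2]
        module
      rw [e4]
      have e5 : kp = θ * (kp / θ) := by field_simp
      calc z + θ • (O + (kp / θ) • v - z) - (z + θ • (O - (kp / θ) • v - z))
          = (2 * (θ * (kp / θ))) • v := by module
        _ = kp • ((2 : ℝ) • v) := by rw [← e5, smul_smul]; ring_nf
    have e6 : q1 - q2 = (2 : ℝ) • v := smul_right_injective _ hkp0.ne' e3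
    have e7 : (1 / 2 : ℝ) • q1 + (1 / 2 : ℝ) • -q2 = (1 / 2 : ℝ) • (q1 - q2) := by module
    rw [e7, e6, smul_smul]
    norm_num
  have hQbody : IsBody Q := by
    refine ⟨hQconv, hQc, 0, ?_⟩
    rw [mem_interior_iff_mem_nhds]
    exact Filter.mem_of_superset (Metric.closedBall_mem_nhds _ hρ0) hQball
  have hQvol : volume Q ≤ ENNReal.ofReal t := by
    refine le_trans ?_ h.hi
    have h1 : volume (mac K y 1) = volume Q := by
      rw [vol_mac]
      simp [hQ]
    rw [← h1]
    exact measure_mono h.sup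
  set P : Set (E k) := {g : E k | ∀ w ∈ Q, |inner ℝ g w| ≤ 1} with hP
  have hPvol : ENNReal.ofReal (c / t) ≤ volume P := by
    have h1 := hpol Q hQbody (fun x hx => QQ_neg hx)
    rw [← hP] at h1
    have h2 : ENNReal.ofReal c ≤ ENNReal.ofReal t * volume P := h1.trans (by gcongr)
    rw [ENNReal.ofReal_div_of_pos ht]
    exact ENNReal.div_le_of_le_mul' h2
  let U : Set (E k) := {v | ∀ w ∈ Q, |inner ℝ (v - u) w| ≤ c0 * H}
  have hUeq : U = (fun p => u + (c0 * H) • p) '' P := by
    ext v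
    simp only [U, hP, mem_ofPred_eq, mem_image]
    constructor
    · intro hv
      refine ⟨(c0 * H)⁻¹ • (v - u), fun w hw => ?_, ?_⟩
      · rw [inner_smul_left, abs_mul]
        simp only [conj_trivial]
        rw [abs_of_nonneg (by positivity), inv_mul_le_iff₀ (by positivity), mul_one]
        exact hv w hw
      · rw [smul_smul, mul_inv_cancel₀ (by positivity), one_smul]
        abel
    · rintro ⟨p, hp, rfl⟩ w hw
      rw [add_sub_cancel_left, inner_smul_left, abs_mul]
      simp only [conj_trivial]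
      rw [abs_of_nonneg (by positivity)]
      have := hp w hw
      have h2 : 0 ≤ c0 * H := by positivity
      nlinarith
  have hUclosed : IsClosed U := by
    have : U = ⋂ w ∈ Q, {v | |inner ℝ (v - u) w| ≤ c0 * H} := by
      ext v; simp [U]
    rw [this]
    refine isClosed_biInter fun w _ => ?_
    exact isClosed_le (by fun_prop) continuous_const
  have hUg : ∀ v ∈ U, ‖v - u‖ ≤ R0 / (4 * r0) := by
    intro v hv
    set g := v - u with hg
    rcases eq_or_ne g 0 with hg0 | hg0
    · rw [hg0, norm_zero]; positivity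
    have hgn : 0 < ‖g‖ := norm_pos_iff.2 hg0
    have h1 : (ρ / ‖g‖) • g ∈ Q := hQball (by
      rw [mem_closedBall_zero_iff, norm_smul, Real.norm_of_nonneg (by positivity)]
      exact le_of_eq (by field_simp))
    have h2 := hv _ h1
    rw [inner_smul_right, real_inner_self_eq_norm_sq] at h2
    have h3 : ρ / ‖g‖ * ‖g‖ ^ 2 = ρ * ‖g‖ := by field_simp
    rw [h3, abs_of_nonneg (by positivity)] at h2
    have h4 : ρ * (R0 / (4 * r0)) = c0 * H := by
      rw [hρ, hc0, hθ]
      field_simp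
      ring
    rw [← h4] at h2
    exact le_of_mul_le_mul_left h2 hρ0
  have hgdiff : ∀ v ∈ U, ∀ w ∈ cap K ℓ s, ∀ w' ∈ cap K ℓ s, |inner ℝ (v - u) (w - w')| ≤ H / 4 := by
    intro v hv w hw w' hw'
    obtain ⟨q, hq, rfl⟩ := hsub w hw
    obtain ⟨q', hq', rfl⟩ := hsub w' hw'
    have h1 := hQconv hq (QQ_neg hq') (a := 1 / 2) (b := 1 / 2) (by norm_num) (by norm_num) (by norm_num)
    have h2 := hv _ h1
    have h3 : y + kp • q - (y + kp • q') = (2 * kp) • ((1 / 2 : ℝ) • q + (1 / 2 : ℝ) • -q') := by module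
    rw [h3, inner_smul_right, abs_mul, abs_of_nonneg (by positivity)]
    calc 2 * kp * |inner ℝ (v - u) ((1 / 2 : ℝ) • q + (1 / 2 : ℝ) • -q')| ≤ 2 * kp * (c0 * H) := by gcongr
      _ = H / 4 := by rw [hc0]; field_simp; norm_num
  have hvw : ∀ v w, inner ℝ v w = ℓ w + inner ℝ (v - u) w := by
    intro v w
    rw [inner_sub_left, hul]
    ring
  -- points of `K` outside of the cap
  have hout : ∀ v ∈ U, ∀ w ∈ K, w ∉ cap K ℓ s → ∃ τ : ℝ, 0 < τ ∧ τ < 1 ∧
      z + τ • (w - z) ∈ cap K ℓ s ∧ τ * (inner ℝ v w - inner ℝ v z) ≤ -(3 / 4 * H) := by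
    intro v hv w hw hwc
    have hws : ℓ w < s := by
      by_contra hcon
      exact hwc ⟨hw, not_lt.1 hcon⟩
    have hd : 0 < M - ℓ w := by linarith
    set τ := H / (M - ℓ w) with hτ
    have hτ0 : 0 < τ := by positivity
    have hτ1 : τ < 1 := (div_lt_one hd).2 (by linarith)
    have hval : ℓ (z + τ • (w - z)) = s := by
      simp only [map_add, map_smul, map_sub, smul_eq_mul]
      rw [hzM]
      have : τ * (ℓ w - M) = -H := by rw [hτ]; field_simp; ring
      rw [this, hHd]
      ring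
    have hwc' : z + τ • (w - z) ∈ cap K ℓ s := by
      refine ⟨?_, hval.ge⟩
      have := hKc hz hw (a := 1 - τ) (b := τ) (by linarith) hτ0.le (by ring)
      convert this using 1
      module
    refine ⟨τ, hτ0, hτ1, hwc', ?_⟩
    have h1 := (abs_le.1 (hgdiff v hv _ hwc' z hzcap)).2
    have h2 : inner ℝ v (z + τ • (w - z)) - inner ℝ v z = τ * (inner ℝ v w - inner ℝ v z) := by
      rw [inner_add_right, inner_smul_right, inner_sub_right]
      ring
    rw [← h2, hvw v (z + τ • (w - z)), hvw v z, hval, hzM]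
    have h3 : inner ℝ (v - u) (z + τ • (w - z) - z) =
        inner ℝ (v - u) (z + τ • (w - z)) - inner ℝ (v - u) z := by rw [inner_sub_right]
    rw [h3] at h1
    linarith
  have hup : ∀ v ∈ U, ∀ w ∈ K, inner ℝ v w ≤ inner ℝ v z + H / 4 := by
    intro v hv w hw
    by_cases hwc : w ∈ cap K ℓ s
    · have h1 := (abs_le.1 (hgdiff v hv _ hwc z hzcap)).2
      rw [inner_sub_right] at h1
      rw [hvw v w, hvw v z, hzM]
      linarith [hM w hw]
    · obtain ⟨τ, h1, h2, h3, h4⟩ := hout v hv w hw hwc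
      have : inner ℝ v w - inner ℝ v z ≤ 0 := by
        by_contra hcon
        rw [not_le] at hcon
        have := mul_pos h1 hcon
        linarith
      linarith
  refine ⟨U, hUclosed.measurableSet, ?_, ?_, ?_⟩
  · intro v hv
    rw [mem_closedBall_zero_iff]
    have h1 := hUg v hv
    have h2 : ‖v‖ ≤ ‖u‖ + ‖v - u‖ := by
      calc ‖v‖ = ‖u + (v - u)‖ := by congr 1; abel
        _ ≤ _ := norm_add_le _ _
    rw [hun] at h2
    linarith
  · rw [hUeq, vol_add_smul, hfr, abs_of_nonneg (by positivity)]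
    calc ENNReal.ofReal (c0 ^ k * c * (H ^ k / t)) = ENNReal.ofReal ((c0 * H) ^ k) * ENNReal.ofReal (c / t) := by
          rw [← ENNReal.ofReal_mul (by positivity)]
          congr 1
          rw [mul_pow]
          ring
      _ ≤ ENNReal.ofReal ((c0 * H) ^ k) * volume P := by gcongr
  · intro v hv
    constructor
    · intro w hw w' hw'
      have h1 := hup v hv w' hw'
      have h2 := (abs_le.1 (hgdiff v hv _ hw z hzcap)).1
      rw [inner_sub_right] at h2
      have h3 := hvw v w
      have h4 := hvw v z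
      have h5 := hw.2
      rw [hzM] at h4
      linarith
    · intro w hw hle
      by_cases hwc : w ∈ cap K ℓ s
      · have := hcapconv hzcap hwc (a := 5 / 8) (b := 3 / 8) (by norm_num) (by norm_num) (by norm_num)
        convert this using 1
        module
      · obtain ⟨τ, h1, h2, h3, h4⟩ := hout v hv w hw hwc
        have h5 := hle z hz
        have h6 : 3 / 8 ≤ τ := by
          have : τ * (inner ℝ v w - inner ℝ v z) ≥ τ * (-(2 * H)) := by
            apply mul_le_mul_of_nonneg_left _ h1.le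
            linarith
          by_contra hcon
          rw [not_le] at hcon
          nlinarith
        have h7 := hcapconv hzcap h3 (a := 1 - 3 / 8 / τ) (b := 3 / 8 / τ)
          (by rw [sub_nonneg, div_le_one h1]; exact h6) (by positivity) (by ring)
        convert h7 using 1
        have h8 : (3 / 8 / τ) * τ = 3 / 8 := by field_simp
        calc z + (3 / 8 : ℝ) • (w - z) = z + ((3 / 8 / τ) * τ) • (w - z) := by rw [h8]
          _ = (1 - 3 / 8 / τ) • z + (3 / 8 / τ) • (z + τ • (w - z)) := by module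

end

theorem c2_main (hPOL : S_POL) : S_C2 := by
  intro k K hbody hk
  obtain ⟨hKc, hK, O, hOi⟩ := hbody
  obtain ⟨c, hc, hpol⟩ := hPOL k hk
  have hfr : finrank ℝ (E k) = k := by simp
  obtain ⟨r0, hr0, hball⟩ : ∃ r0 > 0, Metric.closedBall O r0 ⊆ K := by
    obtain ⟨ε, hε, hb⟩ := Metric.isOpen_iff.1 isOpen_interior O hOi
    exact ⟨ε / 2, by positivity, (Metric.closedBall_subset_ball (by linarith)).trans
      (hb.trans interior_subset)⟩
  have hO : O ∈ K := interior_subset hOi
  obtain ⟨R1, hR1⟩ := hK.isBounded.subset_closedBall O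
  set Rm := max R1 r0 with hRm
  have hKR : K ⊆ Metric.closedBall O Rm := hR1.trans (Metric.closedBall_subset_closedBall (le_max_left _ _))
  have hRmr : r0 ≤ Rm := le_max_right _ _
  set R0 := 2 * Rm with hR0
  have hR0pos : 0 < R0 := by linarith
  set Sb := Metric.closedBall (0 : E k) (1 + R0 / (4 * r0)) with hSb
  set vS := (volume Sb).toReal with hvS
  have hSfin : volume Sb ≠ ⊤ := (isCompact_closedBall _ _).measure_lt_top.ne
  have hvS2 : volume Sb = ENNReal.ofReal vS := (ENNReal.ofReal_toReal hSfin).symm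
  have hSpos : 0 < vS := ENNReal.toReal_pos
    (Metric.measure_closedBall_pos volume _ (by positivity)).ne' hSfin
  have hc1 := c1_pos k
  set κ := (1 / (8 * (4 * ((k : ℝ) + 1)))) ^ k * c with hκ
  have hκpos : 0 < κ := by positivity
  set B := (8 / 3 : ℝ) ^ k / c1 k with hB
  have hB0 : 0 < B := by rw [hB]; positivity
  refine ⟨B * vS / κ, 1, by positivity, one_pos, ?_⟩
  intro t ht _ N y ℓ s hgood hdisj
  have hbdd : ∀ i, BddAbove (ℓ i '' K) := fun i => (hK.image (ℓ i).continuous).bddAbove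
  have hM : ∀ i, ∀ z ∈ K, ℓ i z ≤ sSup (ℓ i '' K) := fun i z hz => le_csSup (hbdd i) ⟨z, hz, rfl⟩
  have hMx : ∀ i, ∃ z0 ∈ K, ℓ i z0 = sSup (ℓ i '' K) := fun i =>
    (hK.image (ℓ i).continuous).sSup_mem (Set.Nonempty.image _ ⟨O, hO⟩)
  choose z hz hzM using hMx
  have hdist : ∀ i, ∀ w ∈ K, |ℓ i w - ℓ i O| ≤ Rm := by
    intro i w hw
    have h1 := (ℓ i).le_opNorm (w - O)
    rw [(hgood i).norm, one_mul, Real.norm_eq_abs, map_sub] at h1
    have h2 := hKR hw
    rw [Metric.mem_closedBall, dist_eq_norm] at h2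
    linarith
  have hW : ∀ i, ∀ w ∈ K, sSup (ℓ i '' K) - ℓ i w ≤ R0 := by
    intro i w hw
    have h1 := (abs_le.1 (hdist i _ (hz i))).2
    have h2 := (abs_le.1 (hdist i w hw)).1
    rw [hzM] at h1
    linarith
  have hpos0 : ∀ i, 0 ≤ sSup (ℓ i '' K) - s i := by
    intro i
    have h1 : 0 < volume (cap K (ℓ i) (s i)) :=
      lt_of_lt_of_le (ENNReal.ofReal_pos.2 (by linarith)) (hgood i).lo
    obtain ⟨w, hw⟩ := nonempty_of_measure_ne_zero h1.ne'
    have := hM i w hw.1
    linarith [hw.2]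
  -- smaller covering constant: if `s` is below the values of `ℓ` on `K` the cap is `K`
  have hH : ∀ i, sSup (ℓ i '' K) - s i ≤ 2 * R0 := by
    intro i
    -- the point `y - p` lies in the cap
    have hmid := (hgood i).mid
    have h1 : 0 < volume (cap K (ℓ i) (s i)) :=
      lt_of_lt_of_le (ENNReal.ofReal_pos.2 (by linarith)) (hgood i).lo
    obtain ⟨w, hw⟩ := nonempty_of_measure_ne_zero h1.ne'
    obtain ⟨p, -, hp1, hp2⟩ := (hgood i).sub hw
    have h2 := hW i _ hp1
    have h3 := hW i _ hp2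
    simp only [map_add, map_sub] at h2 h3
    linarith
  have hU := fun i => exists_U hk hpol hKc hK hr0 hR0pos hball ht (hgood i) (hM i) (hz i)
    (hzM i) (hpos0 i) (hH i) (fun w hw => (hW i w hw).trans (by linarith))
  choose U hU1 hU2 hU3 hU4 using hU
  have hover : ∀ p : E k, ∀ J : Finset (Fin N), (∀ i ∈ J, p ∈ U i) → (J.card : ℝ) ≤ B := by
    intro p J hJ
    rcases J.eq_empty_or_nonempty with rfl | hne
    · simp only [Finset.card_empty, Nat.cast_zero]
      exact hB0.le
    obtain ⟨j, hj, hjmax⟩ := Finset.exists_max_image J (fun i => sSup (ℓ i '' K) - s i) hne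
    have hsub : ∀ i ∈ J, mac K (y i) (1 / 5) ⊆
        (fun q => (z j - (8 / 3 : ℝ) • z j) + (8 / 3 : ℝ) • q) '' cap K (ℓ j) (s j) := by
      intro i hi w hw
      have hwc : w ∈ cap K (ℓ i) (s i) :=
        (hgood i).sup (mac_mono_one hKc _ (by norm_num) (by norm_num) hw)
      have h1 := (hU4 i p (hJ i hi)).1 w hwc
      have h2 := (hU4 j p (hJ j hj)).2 w hwc.1
        (fun w' hw' => (h1 w' hw').trans (by linarith [hjmax i hi]))
      exact ⟨_, h2, by module⟩
    have hvolT : volume ((fun q => (z j - (8 / 3 : ℝ) • z j) + (8 / 3 : ℝ) • q) '' cap K (ℓ j) (s j)) ≤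
        ENNReal.ofReal ((8 / 3) ^ k * t) := by
      rw [vol_add_smul, hfr, abs_of_nonneg (by norm_num), ENNReal.ofReal_mul (by positivity)]
      gcongr
      exact (hgood j).hi
    have hpack := packing (fun i => mac K (y i) (1 / 5)) _ J (c1 k * t) ((8 / 3) ^ k * t) (by positivity)
      (by positivity) (fun i => (mac_compact hK _ _).isClosed.measurableSet) hdisj hsub
      (fun i _ => by have := vol_mac_ge (hgood i); rwa [hfr] at this) hvolT
    refine hpack.trans (le_of_eq ?_)
    rw [hB]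
    field_simp
  have hsum := sum_vol_le U Sb B hU1 Metric.isClosed_closedBall.measurableSet hU2 hover
  have h1 : ∑ i, ENNReal.ofReal (κ * ((sSup (ℓ i '' K) - s i) ^ k / t)) ≤ ENNReal.ofReal (B * vS) := by
    rw [ENNReal.ofReal_mul hB0.le, ← hvS2]
    exact (Finset.sum_le_sum fun i _ => hU3 i).trans hsum
  have h2 : κ * ∑ i, (sSup (ℓ i '' K) - s i) ^ k / t ≤ B * vS := by
    have h3 : ENNReal.ofReal (∑ i, κ * ((sSup (ℓ i '' K) - s i) ^ k / t)) ≤
        ∑ i, ENNReal.ofReal (κ * ((sSup (ℓ i '' K) - s i) ^ k / t)) :=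
      Finset.le_sum_of_subadditive _ ENNReal.ofReal_zero.le (fun _ _ => ENNReal.ofReal_add_le) _ _
    rw [← Finset.mul_sum] at h3
    have h4 := h3.trans h1
    rwa [ENNReal.ofReal_le_ofReal_iff (by positivity)] at h4
  rw [le_div_iff₀ hκpos]
  linarith

end Pool.Agent.W916.RP
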